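import Pool.Agent.Lib.MP_732f67_ag.NE.Full

/-!
Let `X` be a klt Fano variety of dimension `n` over `ℂ`. Every nef decomposition
`- K_X ≡ ∑ a i * M i` (numerical equivalence, positive real coefficients `a i`, nef Cartier divisors
`M i` which are not numerically trivial) has total weight `∑ a i ≤ 2 n`, and the value `2 n` is
attained by some nef decomposition if and only if `X` is `(ℙ^1)^n`. There is no further hypothesis.

The definitions are in two files: `Pool/Agent/Lib/MP_732f67_ag/G/Stm0.lean` (projective varieties
as sets of local rings, Cartier divisors, the canonical divisor, klt singularities, ample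
divisors, `(ℙ^1)^n`) and `Pool/Agent/Lib/MP_732f67_ag/NE/Def.lean` (curves, degrees, nef and
numerically trivial divisors, numerical equivalence, nef decompositions).

Degrees are measured by the ample Cartier divisor `A`, which is arbitrary: `IsDeg X A D O d` says
`h^0 (C, D + b A) = h^0 (C, b A) + d` for all large `b`, on the curve `C` with the generic point
`O`. Such a number `d` exists and is unique (`exists_isDeg` in `NE/K2.lean`). That `(ℙ^1)^n`
satisfies the hypotheses for every `n` is proved in `S/B.lean` (`exists_P1`); the divisor `κ⁻¹`, in
other words `- m K_X`, is a possible choice of `A`.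

The proof works with the reductions modulo `p` of a Galois model of `X` with normal crossings, with
the trace of the Frobenius morphism. It includes proofs of the existence of such models, of
Kawamata-Viehweg vanishing on them, of Shokurov's non-vanishing theorem and of the base point free
theorem for klt Fano varieties.
-/

namespace Pool.Agent.Results.MP_732f67_ag.NefDecomposition

open Pool.Agent.KM

theorem result (L : Type) [Field L] [Algebra ℂ L] (n : ℕ) (X : Set (Subalgebra ℂ L))
    (D : Fin n → Derivation ℂ L L) (m : ℕ) (κ : Subalgebra ℂ L → Lˣ) (hX : KltFano X D m κ)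
    (A : Subalgebra ℂ L → Lˣ) (hAc : IsCar X A) (hA : Ample X A) :
    (∀ (r : ℕ) (a : Fin r → ℝ) (M : Fin r → Subalgebra ℂ L → Lˣ), NDec X A m κ a M →
      ∑ i, a i ≤ 2 * n) ∧
    ((∃ (r : ℕ) (a : Fin r → ℝ) (M : Fin r → Subalgebra ℂ L → Lˣ), NDec X A m κ a M ∧
      ∑ i, a i = 2 * n) ↔ IsP1n X n) :=
  mainI L n X D m κ hX A hAc hA

end Pool.Agent.Results.MP_732f67_ag.NefDecomposition
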